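import Mathlib

set_option autoImplicit false
open MeasureTheory Matrix
open scoped ENNReal

namespace Pool.Agent.Results.MP_db83b6_pr.Spindle

/-- The pairs `i < j`. -/
abbrev E (n : ℕ) := {p : Fin n × Fin n // p.1 < p.2}

/-- Tail correlation functions on `n` points. -/
def TCF (n : ℕ) : Set (E n → ℝ) :=
  {χ | ∃ (Ω : Type) (_ : MeasurableSpace Ω) (P : Measure Ω) (_ : IsProbabilityMeasure P)
    (A : Fin n → Set Ω), (∀ i, MeasurableSet (A i)) ∧ (∀ i, P.real (A i) = 1 / n) ∧
      ∀ e : E n, χ e = n * P.real (A e.1.1 ∩ A e.1.2)}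

/-- `c ⬝ y ≤ b` is a facet-defining inequality of `TCF n`: valid, nontrivial, and the face
where it is tight has codimension one in `TCF n`. -/
def IsFacet (n : ℕ) (c : E n → ℝ) (b : ℝ) : Prop :=
  c ≠ 0 ∧ (∀ y ∈ TCF n, c ⬝ᵥ y ≤ b) ∧
    Module.finrank ℝ (vectorSpan ℝ {y | y ∈ TCF n ∧ c ⬝ᵥ y = b}) + 1 =
      Module.finrank ℝ (vectorSpan ℝ (TCF n))

/-- `TCF_n(v₀,v₁)`: cut out by the facets through `v₀ = 0` or `v₁ = 1`. -/
def spindle (n : ℕ) : Set (E n → ℝ) :=
  {x | ∀ c b, IsFacet n c b → (c ⬝ᵥ (fun _ => 0) = b ∨ c ⬝ᵥ (fun _ => 1) = b) → c ⬝ᵥ x ≤ b}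

/-- The symmetric matrix with unit diagonal and off-diagonal entries `x`. -/
def X {n : ℕ} (x : E n → ℝ) : Matrix (Fin n) (Fin n) ℝ := fun i j =>
  if h : i < j then x ⟨(i, j), h⟩ else if h' : j < i then x ⟨(j, i), h'⟩ else 1

def PSD (n : ℕ) : Set (E n → ℝ) := {x | (X x).PosSemidef}

lemma mem_of_finsets {n : ℕ} (hn : 0 < n) (A : Fin n → Finset (Fin n × Fin n))
    (hA : ∀ i, (A i).card = n) (χ : E n → ℝ)
    (hχ : ∀ e, χ e = ((A e.1.1 ∩ A e.1.2).card : ℝ) / n) : χ ∈ TCF n := by
  classical
  have hn' : (n : ℝ) ≠ 0 := by positivity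
  let P : Measure (Fin n × Fin n) := ((n * n : ℕ) : ℝ≥0∞)⁻¹ • Measure.count
  have hP : ∀ S : Finset (Fin n × Fin n), P.real S = (S.card : ℝ) / (n * n) := by
    intro S
    simp only [P, Measure.real, Measure.smul_apply, Measure.count_apply_finset, smul_eq_mul,
      ENNReal.toReal_mul, ENNReal.toReal_inv, ENNReal.toReal_natCast]
    push_cast; field_simp
  have hprob : IsProbabilityMeasure P := by
    constructor
    have : (Set.univ : Set (Fin n × Fin n)) = ((Finset.univ : Finset (Fin n × Fin n)) : Set (Fin n × Fin n)) := by simp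
    rw [this]
    simp only [P, Measure.smul_apply, Measure.count_apply_finset, smul_eq_mul, Finset.card_univ,
      Fintype.card_prod, Fintype.card_fin]
    exact ENNReal.inv_mul_cancel (by exact_mod_cast (Nat.mul_pos hn hn).ne')
      (ENNReal.natCast_ne_top _)
  refine ⟨Fin n × Fin n, inferInstance, P, hprob, fun i => A i,
    fun i => (A i).measurableSet, fun i => ?_, fun e => ?_⟩
  · rw [hP, hA]; field_simp
  · rw [← Finset.coe_inter, hP, hχ]; field_simp

noncomputable def star (m : ℕ) : E (m + 1) → ℝ := fun e => if e.1.1 = 0 then 1 / 2 else 0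

lemma near0 (m : ℕ) : (fun e => (2 / (m + 1 : ℝ)) * star m e) ∈ TCF (m + 1) := by
  classical
  refine mem_of_finsets (Nat.succ_pos m)
    (fun i => if i = 0 then Finset.univ ×ˢ {0} else {i} ×ˢ Finset.univ) (fun i => ?_) _ ?_
  · split_ifs <;> simp
  · rintro ⟨⟨i, j⟩, h⟩
    have hj : j ≠ 0 := (lt_of_le_of_lt (Fin.zero_le i) h).ne'
    simp only [star, hj, if_false]
    split_ifs with hi
    · rw [Finset.product_inter_product]; simp; field_simp
    · have : i ≠ j := ne_of_lt h
      rw [Finset.product_inter_product]; simp [this]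

lemma near1 (m : ℕ) : (fun e => 1 + (2 / (m + 1 : ℝ)) * (star m e - 1)) ∈ TCF (m + 1) := by
  classical
  have hc : ∀ j : Fin (m + 1), (({0} ×ˢ Finset.univ.erase j : Finset (Fin (m+1) × Fin (m+1)))).card
      = m := by intro j; simp
  refine mem_of_finsets (Nat.succ_pos m)
    (fun i => if i = 0 then {0} ×ˢ Finset.univ else insert (i, i) ({0} ×ˢ Finset.univ.erase i))
    (fun i => ?_) _ ?_
  · split_ifs with h
    · simp
    · rw [Finset.card_insert_of_notMem (by simp [Ne.symm h]), hc]
  · rintro ⟨⟨i, j⟩, h⟩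
    have hj : j ≠ 0 := (lt_of_le_of_lt (Fin.zero_le i) h).ne'
    have hij : i ≠ j := ne_of_lt h
    simp only [star, hj, if_false]
    split_ifs with hi
    · rw [Finset.inter_insert_of_notMem (by simp [hj.symm]), Finset.product_inter_product]
      simp only [Finset.inter_self, Finset.univ_inter, hc]
      push_cast; field_simp; ring
    · rw [Finset.inter_insert_of_notMem (by simp [hj.symm, hij.symm]),
        Finset.insert_inter_of_notMem (by simp [Ne.symm hi]), Finset.product_inter_product]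
      have e : Finset.univ.erase i ∩ Finset.univ.erase j = (Finset.univ.erase i).erase j := by
        ext t; simp [and_comm]
      have hm : 1 ≤ m := by
        have := j.2; have h1 : (j : ℕ) ≠ 0 := fun h2 => hj (Fin.ext h2); omega
      rw [Finset.inter_self, e, Finset.card_product, Finset.card_erase_of_mem (by simp [hij.symm])]
      simp only [Finset.card_singleton, one_mul, Finset.card_erase_of_mem (Finset.mem_univ i),
        Finset.card_univ, Fintype.card_fin, Nat.add_sub_cancel]
      rw [show m.succ - 1 - 1 = m - 1 from rfl, Nat.cast_sub hm]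
      push_cast; field_simp; ring

theorem result : ∀ n : ℕ, 6 ≤ n → ¬ (spindle n ⊆ PSD n) := by
  intro n hn h
  obtain ⟨m, rfl⟩ : ∃ m, n = m + 1 := ⟨n - 1, by omega⟩
  have hm : (5 : ℝ) ≤ m := by exact_mod_cast (by omega : 5 ≤ m)
  have ht : 0 < 2 / (m + 1 : ℝ) := by positivity
  have hx : star m ∈ spindle (m + 1) := by
    rintro c b ⟨-, hv, -⟩ (h0 | h1)
    · have h2 := hv _ (near0 m)
      have e : c ⬝ᵥ (fun e => (2 / (m + 1 : ℝ)) * star m e) = (2 / (m + 1 : ℝ)) * (c ⬝ᵥ star m) := by
        simp only [dotProduct, Finset.mul_sum]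
        exact Finset.sum_congr rfl (fun _ _ => by ring)
      have hb : b = 0 := by rw [← h0]; simp [dotProduct]
      rw [e, hb] at h2
      rw [hb]
      by_contra h3
      exact absurd h2 (not_le.2 (mul_pos ht (not_le.1 h3)))
    · have h2 := hv _ (near1 m)
      have e : c ⬝ᵥ (fun e => 1 + (2 / (m + 1 : ℝ)) * (star m e - 1)) =
          b + (2 / (m + 1 : ℝ)) * (c ⬝ᵥ star m - b) := by
        rw [← h1]
        simp only [dotProduct, Finset.mul_sum, ← Finset.sum_sub_distrib, ← Finset.sum_add_distrib]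
        exact Finset.sum_congr rfl (fun _ _ => by ring)
      rw [e] at h2
      by_contra h3
      have := mul_pos ht (sub_pos.2 (not_le.1 h3))
      linarith
  have hp := (h hx).dotProduct_mulVec_nonneg (Fin.cons (-2) (fun _ => 1))
  have hX : ∀ i j : Fin m, X (star m) i.succ j.succ = if i = j then 1 else 0 := by
    intro i j
    unfold X star
    rcases lt_trichotomy i j with h1 | rfl | h1
    · simp [h1, h1.ne]
    · simp
    · simp [h1, h1.ne', h1.le]
  have hX0 : ∀ j : Fin m, X (star m) 0 j.succ = 1 / 2 := by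
    intro j; unfold X star; simp
  have hX1 : ∀ j : Fin m, X (star m) j.succ 0 = 1 / 2 := by
    intro j; unfold X star; simp
  have hX2 : X (star m) 0 0 = 1 := by unfold X; simp
  simp only [dotProduct, mulVec, Fin.sum_univ_succ, Fin.cons_zero, Fin.cons_succ, hX, hX0, hX1,
    hX2, star_trivial, mul_one, Finset.sum_ite_eq, Finset.mem_univ, if_true, Finset.sum_const,
    Finset.card_univ, Fintype.card_fin, nsmul_eq_mul] at hp
  linarith

end Pool.Agent.Results.MP_db83b6_pr.Spindle
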